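import Mathlib

set_option autoImplicit false

namespace Pool.Agent.H.MP_a1e9e0_gt.A

open Set Function Filter Topology Cardinal

theorem inj {X T : Type} (K : X → Set T) (h : ∀ x, #X ≤ #(K x)) :
    ∃ t : X → T, Injective t ∧ ∀ x, t x ∈ K x := by
  obtain ⟨r, wo, hr⟩ := Cardinal.exists_ord_eq X
  have : ∀ x (f : ∀ y, r y x → T), ∃ u ∈ K x, ∀ y k, f y k ≠ u := fun x f => by
    by_contra! k
    exact ((card_typein_lt x hr).trans_le ((h x).trans (mk_le_mk_of_subset
      (t := range fun y : {y // r y x} => f y.1 y.2) fun u l =>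
        let ⟨y, m, p⟩ := k u l; ⟨⟨y, m⟩, p⟩))).not_ge mk_range_le
  choose c c1 c2 using this
  have e := wo.wf.fix_eq c
  refine ⟨wo.wf.fix c, fun x y k => ?_, fun x => e x ▸ c1 _ _⟩
  rcases trichotomous_of r x y with l | l | l
  exacts [(c2 y (fun y _ => wo.wf.fix c y) x l (k.trans (e y))).elim, l,
    (c2 x (fun y _ => wo.wf.fix c y) y l (k.symm.trans (e x))).elim]

theorem big (Q : Set (Ultrafilter ℕ)) (h : Q.Infinite) : ∃ f : Ultrafilter ℕ → Ultrafilter ℕ,
    Injective f ∧ ∀ u, ∀ A ∈ f u, ∃ q ∈ Q, A ∈ q := by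
  have := h.to_subtype
  obtain ⟨U, u1, u2, u3⟩ := exists_seq_infinite_isOpen_pairwise_disjoint Q
  choose q hq using fun n => (u1 n).nonempty
  have : ∀ n, ∃ A ∈ (q n).1, ∀ m, m ≠ n → A ∉ (q m).1 := fun n => by
    obtain ⟨O, k, l⟩ := u2 n
    obtain ⟨_, ⟨A, rfl⟩, m, p⟩ := ultrafilterBasis_is_basis.exists_subset_of_mem_open
      (show (q n).1 ∈ O from (l.ge (hq n) :)) k
    exact ⟨A, m, fun j a b => disjoint_left.1 (u3 a) (hq j) (l.le (p b))⟩
  choose A a1 a2 using this
  have k : ∀ S : Set ℕ, {n | (⋃ m ∈ S, disjointed A m) ∈ (q n).1} = S := fun S => by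
    have d : ∀ n, disjointed A n ∈ (q n).1 := fun n => by
      rw [disjointed_eq_inter_compl]
      exact inter_mem (a1 n) ((biInter_mem (finite_Iio n)).2 fun j l =>
        Ultrafilter.compl_mem_iff_notMem.2 (a2 j n (ne_of_gt l)))
    refine Set.ext fun n => ⟨fun k => ?_, fun k => mem_of_superset (d n) (subset_biUnion_of_mem k)⟩
    obtain ⟨x, l, m⟩ := Ultrafilter.nonempty_of_mem (inter_mem k (d n))
    obtain ⟨j, p, r⟩ := mem_iUnion₂.1 l
    exact by_contra fun s => disjoint_left.1 (disjoint_disjointed A fun e : j = n => s (e ▸ p)) r m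
  refine ⟨fun u => u.bind fun n => (q n).1, fun u v e => Ultrafilter.ext fun S => ?_, fun u A l => ?_⟩
  · have := congrArg ((⋃ m ∈ S, disjointed A m) ∈ ·) e
    rw [← k S]
    exact iff_of_eq this
  · obtain ⟨n, m⟩ := Ultrafilter.nonempty_of_mem (f := u) (s := {n | A ∈ (q n).1}) l
    exact ⟨_, (q n).2, m⟩

theorem sur (A : Type) [TopologicalSpace A] [CompactSpace A] [T2Space A] [Nonempty A]
    [TopologicalSpace.SeparableSpace A] : ∃ π : Ultrafilter ℕ → A, Continuous π ∧ Surjective π :=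
  have c := continuous_ultrafilter_extend (TopologicalSpace.denseSeq A)
  ⟨_, c, range_eq_univ.1 ((isCompact_range c).isClosed.closure_eq.symm.trans
    (Dense.closure_eq ((TopologicalSpace.denseRange_denseSeq A).mono (range_subset_iff.2 fun n =>
      ⟨pure n, congrFun (ultrafilter_extend_extends _) n⟩))))⟩

theorem pos : 2 ^ 𝔠 ≤ #(Ultrafilter ℕ) := by
  classical
  have : TopologicalSpace.SeparableSpace ((ℕ → Bool) → Bool) := ⟨⟨range
    fun (q : ℕ × Finset (List Bool)) a => decide (List.ofFn (fun i : Fin q.1 => a i) ∈ q.2),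
    countable_range _, fun x => by
      have : ∀ F : Finset (ℕ → Bool), ∃ n, ∀ a ∈ F, ∀ b ∈ F, (∀ k < n, a k = b k) → a = b :=
        fun F => ((eventually_all_finset F).2 fun a _ => (eventually_all_finset F).2 fun b _ => by
          by_cases e : a = b
          · exact .of_forall fun _ _ => e
          · obtain ⟨k, l⟩ := ne_iff.1 e
            exact (eventually_gt_atTop k).mono fun n m p => (l (p k m)).elim).exists
      choose n hn using this
      refine mem_closure_of_tendsto (b := atTop) (tendsto_pi_nhds.2 fun a => ?_) (.of_forall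
        fun F => ⟨(n F, (F.filter (x · = true)).image fun a => List.ofFn fun i : Fin (n F) => a i),
          rfl⟩)
      refine tendsto_pure.2 ((eventually_ge_atTop {a}).mono fun F k => ?_) |>.mono_right
        (pure_le_nhds _)
      replace k : a ∈ F := by simpa using k
      rw [Bool.eq_iff_iff]
      simp only [decide_eq_true_eq, Finset.mem_image, Finset.mem_filter, List.ofFn_inj]
      exact ⟨fun ⟨b, l, m⟩ => hn F b l.1 a k (fun i p => congrFun m ⟨i, p⟩) ▸ l.2,
        fun l => ⟨a, ⟨k, l⟩, rfl⟩⟩⟩⟩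
  obtain ⟨π, -, h⟩ := sur ((ℕ → Bool) → Bool)
  simpa using mk_le_of_surjective h

theorem pib : ∃ (E : Set (Ultrafilter ℕ)) (M : Type) (_ : Countable M) (_ : Nonempty M)
    (P : M → Set (Ultrafilter ℕ)), IsClosed E ∧ (∀ m, (P m).Infinite ∧ IsClosed (P m) ∧ P m ⊆ E) ∧
      ∀ u ∈ E, ∀ A ∈ u, ∃ m, ∀ v ∈ P m, A ∈ v := by
  obtain ⟨π, c, s⟩ := sur unitInterval
  obtain ⟨E, e1, e2, e3⟩ := exists_compact_surjective_zorn_subset c s
  have e := (isCompact_iff_compactSpace.2 e1).isClosed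
  have b := TopologicalSpace.isBasis_countableBasis unitInterval
  have k : ∀ u ∈ E, ∀ A ∈ u, ∃ m : TopologicalSpace.countableBasis unitInterval,
      ∀ v ∈ E ∩ π ⁻¹' closure m.1, A ∈ v := fun u k A l => by
    have a : IsClosed {v : E | Aᶜ ∈ v.1} :=
      (ultrafilter_isClosed_basic Aᶜ).preimage continuous_subtype_val
    obtain ⟨x, p⟩ := (ne_univ_iff_exists_notMem _).1 (e3 _ ((ne_univ_iff_exists_notMem _).2
      ⟨⟨u, k⟩, fun p => Ultrafilter.compl_mem_iff_notMem.1 p l⟩) a)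
    obtain ⟨W, q, -, r⟩ := b.exists_closure_subset ((a.isCompact.image
      (c.comp continuous_subtype_val)).isClosed.compl_mem_nhds p)
    exact ⟨⟨W, q⟩, fun v w => by_contra fun y =>
      r w.2 ⟨⟨v, w.1⟩, Ultrafilter.compl_mem_iff_notMem.2 y, rfl⟩⟩
  obtain ⟨u, h, -⟩ := e2.ge (mem_univ 0)
  refine ⟨E, _, inferInstance, ⟨(k u h _ univ_mem).choose⟩, _, e, fun m => ⟨?_,
    e.inter (isClosed_closure.preimage c), inter_subset_left⟩, k⟩
  obtain ⟨x, p⟩ := TopologicalSpace.nonempty_of_mem_countableBasis m.2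
  refine .of_image π ((infinite_of_mem_nhds x (b.mem_nhds m.2 p)).mono fun y q => ?_)
  obtain ⟨v, r, rfl⟩ := e2.ge (mem_univ y)
  exact ⟨v, ⟨r, subset_closure q⟩, rfl⟩

end Pool.Agent.H.MP_a1e9e0_gt.A
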